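import Pool.Agent.H57.SeqSep

set_option autoImplicit false

namespace Pool.Agent.Results.MP_d23b2b_gt.UnderCH

theorem result (hCH : Cardinal.continuum.{0} = Cardinal.aleph 1) :
    ∃ (X : Type) (_ : TopologicalSpace X), T35Space X ∧
      (∀ A : Set (X → ℝ), A ⊆ {f : X → ℝ | Continuous f} →
        ∃ D : Set (X → ℝ), D ⊆ A ∧ D.Countable ∧
          ∀ f ∈ A, ∃ u : ℕ → X → ℝ, (∀ k, u k ∈ D) ∧ Filter.Tendsto u Filter.atTop (nhds f)) ∧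
      ¬ ∃ N : Set (Set (X → ℝ)), N.Countable ∧ ∀ f : X → ℝ, Continuous f →
        ∀ U : Set (X → ℝ), IsOpen U → f ∈ U → ∃ n ∈ N, f ∈ n ∧ n ⊆ U :=
  Pool.Agent.H57.SeqSep.notcosmic hCH

end Pool.Agent.Results.MP_d23b2b_gt.UnderCH
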